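import Pool.Agent.R137.RunSorted

/-!
# Descent polynomials of run-sorted permutations: same-phase stability and interlacing

Q1 holds: `Q_n` is same-phase stable for every `n ≥ 1`.  Q2 fails: for `lam = (1, 1, 1, 30, 1, ...)` the
interlacing `Q_5^lam ⪯ Q_6^lam` fails.
-/

set_option autoImplicit false

namespace Pool.Agent.Results.MP_84eedd_co.SamePhase

open Polynomial Pool.Agent.R137.Words Pool.Agent.R137.Sector Pool.Agent.R137.RunSorted

/-- A permutation is run-sorted if it arises from a set partition `P` of the ground set: order the blocks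
by increasing smallest element (the list `L`), write each block in increasing order, and concatenate. -/
def IsRunSorted {n : ℕ} (π : Equiv.Perm (Fin n)) : Prop :=
  ∃ (P : Finpartition (Finset.univ : Finset (Fin n))) (L : List (Finset (Fin n))),
    (∀ A, A ∈ L ↔ A ∈ P.parts) ∧ L.Pairwise (fun A B => A.min < B.min) ∧
      List.ofFn π = (L.map (fun A => A.sort)).flatten

/-- The descent set of a permutation: the positions `k ∈ {1, ..., n - 1}` with `π(k) > π(k+1)`, where
`π(k)` is the `k`-th letter (position `k` is the index `k - 1` of `Fin n`). -/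
def DES {n : ℕ} (π : Equiv.Perm (Fin n)) : Finset ℕ :=
  (Finset.range n).filter fun k => ∃ h : 1 ≤ k ∧ k < n, π ⟨k, h.2⟩ < π ⟨k - 1, by omega⟩

open Classical in
/-- `Q_n = ∑ x^{DES π}` over the run-sorted permutations of an `n`-element set -/
noncomputable def Q (n : ℕ) : MvPolynomial ℕ ℝ :=
  ∑ π : Equiv.Perm (Fin n) with IsRunSorted π, ∏ k ∈ DES π, MvPolynomial.X k

/-- `p^lam (t) = p(lam_1 t, lam_2 t, ...)` -/
noncomputable def spec (lam : ℕ → ℝ) (p : MvPolynomial ℕ ℝ) : ℝ[X] :=
  MvPolynomial.aeval (fun i => C (lam i) * X) p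

/-- for all positive `lam` the polynomial `p^lam` has only real roots -/
def SamePhaseStable (p : MvPolynomial ℕ ℝ) : Prop :=
  ∀ lam : ℕ → ℝ, (∀ i, 0 < lam i) → ∀ z : ℂ, aeval z (spec lam p) = 0 → z.im = 0

/-- `l` is the weakly decreasing list of all the roots of `f` with multiplicity; they are all real and
nonpositive -/
def RootList (f : ℝ[X]) (l : List ℝ) : Prop :=
  l.Pairwise (· ≥ ·) ∧ (∀ r ∈ l, r ≤ 0) ∧ (l : Multiset ℝ) = f.roots ∧ l.length = f.natDegree

/-- the chain `⋯ ≤ a_2 ≤ b_2 ≤ a_1 ≤ b_1` -/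
def Chain (a b : List ℝ) : Prop :=
  (∀ (i : ℕ) (h1 : i < a.length) (h2 : i < b.length), a[i] ≤ b[i]) ∧
    ∀ (i : ℕ) (h1 : i < a.length) (h2 : i + 1 < b.length), b[i + 1] ≤ a[i]

theorem isRunSorted_iff {n : ℕ} (π : Equiv.Perm (Fin n)) :
    IsRunSorted π ↔ Good (List.ofFn π) ∧ HM (List.ofFn π) := by
  constructor
  · rintro ⟨P, L, h1, h2, h3⟩
    exact RS.good ⟨L, fun A hA => P.nonempty_of_mem_parts ((h1 A).1 hA), h2, h3⟩
  · rintro ⟨h1, h2⟩
    obtain ⟨L, hL, hp, he⟩ := RS_of_good h1 h2
    have hnd : (List.ofFn π).Nodup := List.nodup_ofFn.2 π.injective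
    rw [he, List.nodup_flatten] at hnd
    have hdisj : ∀ A ∈ L, ∀ B ∈ L, A ≠ B → Disjoint A B := by
      have h3 := hnd.2
      rw [List.pairwise_map] at h3
      intro A hA B hB hAB
      have h4 : Std.Symm (fun A B : Finset (Fin n) => List.Disjoint A.sort B.sort) :=
        ⟨fun A B h => h.symm⟩
      have h5 := h3.forall hA hB hAB
      rw [Finset.disjoint_left]
      intro x hx hx'
      exact h5 ((Finset.mem_sort _).2 hx) ((Finset.mem_sort _).2 hx')
    refine ⟨⟨L.toFinset, ?_, ?_, ?_⟩, L, fun A => by simp, hp, he⟩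
    · rw [Finset.supIndep_iff_pairwiseDisjoint]
      intro A hA B hB hAB
      exact hdisj A (by simpa using hA) B (by simpa using hB) hAB
    · ext x
      simp only [Finset.mem_sup, List.mem_toFinset, id, Finset.mem_univ, iff_true]
      have h3 : x ∈ List.ofFn π := by
        rw [List.mem_ofFn]
        exact π.surjective x
      rw [he, List.mem_flatten] at h3
      obtain ⟨l, hl, hx⟩ := h3
      obtain ⟨A, hA, rfl⟩ := List.mem_map.1 hl
      exact ⟨A, hA, (Finset.mem_sort _).1 hx⟩
    · rw [List.mem_toFinset]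
      intro hcon
      exact Finset.not_nonempty_empty (hL _ hcon)

theorem prod_DES {R : Type*} [CommSemiring R] (x : ℕ → R) {n : ℕ} (π : Equiv.Perm (Fin (n + 1))) :
    ∏ k ∈ DES π, x k = wt (fun j => x (n + 1 - j)) (List.ofFn π) := by
  rw [wt_eq _ 0, DES, Finset.prod_filter, List.length_ofFn, Finset.prod_range_succ']
  rw [if_neg (by simp), mul_one, Nat.add_sub_cancel]
  refine Finset.prod_congr rfl fun k hk => ?_
  rw [Finset.mem_range] at hk
  have h1 : n + 1 - (n - k) = k + 1 := by omega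
  rw [h1]
  refine if_congr ?_ rfl rfl
  rw [List.getD_eq_getElem _ _ (by simp; omega), List.getD_eq_getElem _ _ (by simp; omega),
    List.getElem_ofFn, List.getElem_ofFn]
  constructor
  · rintro ⟨h, h'⟩
    simpa using h'
  · intro h
    exact ⟨⟨by omega, by omega⟩, by simpa using h⟩

open Classical in
/-- the generating function in terms of the transfer recursion -/
theorem sum_eq_G {R : Type*} [CommSemiring R] (x : ℕ → R) (n : ℕ) :
    ∑ π : Equiv.Perm (Fin (n + 1)) with IsRunSorted π, ∏ k ∈ DES π, x k =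
      G (fun j => x (n + 1 - j)) n 0 := by
  set y := fun j => x (n + 1 - j) with hy
  rw [Finset.sum_filter]
  have h1 : ∀ π : Equiv.Perm (Fin (n + 1)), (if IsRunSorted π then ∏ k ∈ DES π, x k else 0) =
      if HM (List.ofFn π) then wR y (List.ofFn π) else 0 := by
    intro π
    rw [prod_DES, wR_eq _ _ (List.nodup_ofFn.2 π.injective)]
    rw [if_congr (isRunSorted_iff π) rfl rfl]
    generalize List.ofFn (π : Fin (n + 1) → Fin (n + 1)) = w
    by_cases h1 : Good w <;> by_cases h2 : HM w <;> simp [h1, h2, hy]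
  rw [Finset.sum_congr rfl (fun π _ => h1 π)]
  rw [sum_perm (n + 1) (fun w => if HM w then wR y w else 0), sum_words_succ]
  rw [Finset.sum_eq_single (0 : Fin (n + 1))]
  · have hc : ((Finset.univ : Finset (Fin (n + 1))).erase 0).card = n := by simp
    have h2 := sum_wR y n ((Finset.univ : Finset (Fin (n + 1))).erase 0) hc 0
      (Finset.notMem_erase _ _)
    have h3 : (((Finset.univ : Finset (Fin (n + 1))).erase 0).filter (· < 0)).card = 0 := by
      rw [Finset.card_eq_zero, Finset.filter_eq_empty_iff]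
      intro a _
      exact Fin.not_lt_zero a
    rw [h3] at h2
    rw [← h2]
    refine Finset.sum_congr rfl fun w hw => ?_
    rw [mem_words n _ hc] at hw
    rw [if_pos]
    intro c hcw
    have : c ∈ (Finset.univ : Finset (Fin (n + 1))).erase 0 := by
      rw [← hw.2, List.mem_toFinset]
      exact hcw
    exact Fin.pos_of_ne_zero (Finset.ne_of_mem_erase this)
  · intro b _ hb
    have hc : ((Finset.univ : Finset (Fin (n + 1))).erase b).card = n := by simp
    refine Finset.sum_eq_zero fun w hw => ?_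
    rw [mem_words n _ hc] at hw
    rw [if_neg]
    intro hcon
    have : (0 : Fin (n + 1)) ∈ w := by
      rw [← List.mem_toFinset, hw.2, Finset.mem_erase]
      exact ⟨hb.symm, Finset.mem_univ _⟩
    exact Fin.not_lt_zero _ (hcon 0 this)
  · intro h
    exact absurd (Finset.mem_univ _) h

theorem spec_Q (lam : ℕ → ℝ) (n : ℕ) :
    spec lam (Q (n + 1)) = G (fun j => C (lam (n + 1 - j)) * X) n 0 := by
  rw [spec, Q, map_sum]
  simp only [map_prod, MvPolynomial.aeval_X]
  exact sum_eq_G (fun i => C (lam i) * X) n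

theorem aeval_spec_Q (lam : ℕ → ℝ) (n : ℕ) (z : ℂ) :
    aeval z (spec lam (Q (n + 1))) = G (fun j => (lam (n + 1 - j) : ℂ) * z) n 0 := by
  rw [spec, Q, map_sum, map_sum]
  simp only [map_prod, MvPolynomial.aeval_X, map_mul, aeval_C, aeval_X]
  exact sum_eq_G (fun i => (lam i : ℂ) * z) n

theorem stable (n : ℕ) (hn : 1 ≤ n) : SamePhaseStable (Q n) := by
  obtain ⟨n, rfl⟩ := Nat.exists_eq_add_of_le' hn
  intro lam hlam z hz
  by_contra hcon
  have key : ∀ w : ℂ, 0 < w.im → aeval w (spec lam (Q (n + 1))) ≠ 0 := by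
    intro w hw
    rw [aeval_spec_Q]
    exact G_ne_zero hw (fun j => lam (n + 1 - j)) (fun k => (hlam _).le) n
  rcases lt_or_gt_of_ne hcon with h | h
  · refine key (starRingEnd ℂ z) (by simpa using h) ?_
    have h2 : aeval (starRingEnd ℂ z) (spec lam (Q (n + 1))) =
        starRingEnd ℂ (aeval z (spec lam (Q (n + 1)))) := by
      rw [aeval_conj]
    rw [h2, hz, map_zero]
  · exact key z h hz

/-- the parameters of the counterexample to the interlacing -/
def lam0 (i : ℕ) : ℝ := if i = 4 then 30 else 1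

theorem G4 {R : Type*} [CommRing R] (y : ℕ → R) :
    G y 4 0 = 1 + 3 * y 1 + 5 * y 2 + 3 * y 3 + 3 * y 1 * y 3 := by
  simp [G, Finset.sum_Ico_eq_sum_range, Finset.sum_range_succ]
  ring

theorem G5 {R : Type*} [CommRing R] (y : ℕ → R) :
    G y 5 0 = 1 + 4 * y 1 + 9 * y 2 + 9 * y 3 + 4 * y 4 + 9 * y 1 * y 3 + 8 * y 1 * y 4 +
      8 * y 2 * y 4 := by
  simp [G, Finset.sum_Ico_eq_sum_range, Finset.sum_range_succ]
  ring

theorem spec5 : spec lam0 (Q 5) = 90 * X ^ 2 + 98 * X + 1 := by
  rw [spec_Q, G4]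
  norm_num [lam0]
  rw [show (C 30 : ℝ[X]) = 30 from rfl]
  ring

theorem spec6 : spec lam0 (Q 6) = 257 * X ^ 2 + 287 * X + 1 := by
  rw [spec_Q, G5]
  norm_num [lam0]
  rw [show (C 30 : ℝ[X]) = 30 from rfl]
  ring

theorem rootList_quad (a r s : ℝ) (ha : a ≠ 0) (hrs : s ≤ r) (hr : r ≤ 0) (f : ℝ[X])
    (hf : f = C a * ((X - C r) * (X - C s))) : RootList f [r, s] := by
  have h0 : (X - C r) * (X - C s) ≠ 0 := mul_ne_zero (X_sub_C_ne_zero r) (X_sub_C_ne_zero s)
  refine ⟨by simpa using hrs, ?_, ?_, ?_⟩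
  · intro x hx
    simp only [List.mem_cons, List.not_mem_nil, or_false] at hx
    rcases hx with rfl | rfl
    · exact hr
    · exact hrs.trans hr
  · rw [hf, roots_C_mul _ ha, roots_mul h0, roots_X_sub_C, roots_X_sub_C]
    rfl
  · rw [hf, natDegree_C_mul ha, natDegree_mul (X_sub_C_ne_zero r) (X_sub_C_ne_zero s),
      natDegree_X_sub_C, natDegree_X_sub_C]
    rfl

theorem rootList_quad' (a b : ℝ) (ha : 0 < a) (hb : 0 ≤ b) (hd : 0 ≤ b ^ 2 - 4 * a)
    (f : ℝ[X]) (hf : f = C a * X ^ 2 + C b * X + 1) :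
    RootList f [(-b + √(b ^ 2 - 4 * a)) / (2 * a), (-b - √(b ^ 2 - 4 * a)) / (2 * a)] := by
  have h1 := Real.sqrt_nonneg (b ^ 2 - 4 * a)
  have h2 := Real.sq_sqrt hd
  have h3 : √(b ^ 2 - 4 * a) ≤ b := by
    rw [Real.sqrt_le_left hb]
    linarith
  refine rootList_quad a _ _ ha.ne' ?_ ?_ f ?_
  · apply div_le_div_of_nonneg_right _ (by linarith)
    linarith
  · apply div_nonpos_of_nonpos_of_nonneg _ (by linarith)
    linarith
  · rw [hf]
    set s := √(b ^ 2 - 4 * a) with hs
    have e1 : C ((-b + s) / (2 * a)) + C ((-b - s) / (2 * a)) = -C (b / a) := by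
      rw [← C_add, ← C_neg]
      congr 1
      field_simp
      ring
    have e2 : C ((-b + s) / (2 * a)) * C ((-b - s) / (2 * a)) = C (1 / a) := by
      rw [← C_mul]
      congr 1
      field_simp
      nlinarith
    have e3 : C a * C (b / a) = C b := by
      rw [← C_mul]
      congr 1
      field_simp
    have e4 : C a * C (1 / a) = 1 := by
      rw [← C_mul, mul_one_div_cancel ha.ne', C_1]
    linear_combination (C a * X) * e1 - C a * e2 - X * e3 - e4

/-- **Q1 holds and Q2 fails.**  For every `n ≥ 1` the polynomial `Q_n` is same-phase stable.  There are a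
positive sequence `lam` and `n > 1` such that, for the decreasing lists `a` and `b` of the roots of
`Q_{n-1}^lam` and `Q_n^lam`, the interlacing chain fails. -/
theorem result : (∀ n, 1 ≤ n → SamePhaseStable (Q n)) ∧
    ∃ lam : ℕ → ℝ, (∀ i, 0 < lam i) ∧ ∃ (n : ℕ) (a b : List ℝ), 1 < n ∧
      RootList (spec lam (Q (n - 1))) a ∧ RootList (spec lam (Q n)) b ∧ ¬ Chain a b := by
  refine ⟨stable, lam0, fun i => ?_, 6, _, _, by norm_num,
    rootList_quad' 90 98 (by norm_num) (by norm_num) (by norm_num) _ ?_,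
    rootList_quad' 257 287 (by norm_num) (by norm_num) (by norm_num) _ ?_, ?_⟩
  · unfold lam0
    split_ifs <;> norm_num
  · exact spec5
  · exact spec6
  · rintro ⟨h, _⟩
    have h1 := h 1 (by norm_num) (by norm_num)
    norm_num at h1
    have h2 : √(9244 : ℝ) < 97 := by
      rw [Real.sqrt_lt' (by norm_num)]
      norm_num
    have h3 : (285 : ℝ) < √81341 := by
      apply Real.lt_sqrt_of_sq_lt
      norm_num
    rw [div_le_div_iff₀ (by norm_num) (by norm_num)] at h1
    linarith

end Pool.Agent.Results.MP_84eedd_co.SamePhase
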